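import Pool.Agent.Helper10.RC.Basic

/-! # MP_b55b7c_an: domination by a trace for matrices -/

open scoped ENNReal NNReal InnerProductSpace ComplexOrder
open Filter Topology

attribute [-instance] CStarMatrix.instAlgebra CStarMatrix.instModule CStarMatrix.instSMul
  CStarMatrix.instMulAction CStarMatrix.instDistribMulAction

noncomputable section
namespace RC
universe u

theorem domM_dim_zero (h3 : QMonoP.{u}) (h5 : QBasicP.{u}) {A : Type u} [CStarAlgebra A]
    [PartialOrder A] [StarOrderedRing A] (σ : QTrace A) (κ : Type) [Fintype κ] [DecidableEq κ] :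
    σ.dim (0 : CStarMatrix κ κ A) ≤ 0 := by
  have h1 : Cu (0 : CStarMatrix κ κ A) (0 : CStarMatrix Empty Empty A) := by
    intro ε hε
    refine ⟨0, ?_⟩
    have : (0 : CStarMatrix κ Empty A) * (0 : CStarMatrix Empty Empty A) *
        (0 : CStarMatrix κ Empty A).conjTranspose - 0 = (0 : CStarMatrix κ κ A) := by
      ext i j
      rw [sub_zero, CStarMatrix.mul_apply]
      simp
    rw [this, norm_zero]
    exact hε
  have h2 := h3 A σ κ Empty 0 0 le_rfl le_rfl h1
  have h4 := (h5 A σ Empty 0 le_rfl).2.2.1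
  simp only [Fintype.card_empty, Nat.cast_zero] at h4
  exact h2.trans h4

theorem domM_add (h1 : CuAddP.{u}) (h3 : QMonoP.{u}) (h4 : QDsumP.{u}) {A : Type u}
    [CStarAlgebra A] [PartialOrder A] [StarOrderedRing A] (σ : QTrace A) (κ : Type) [Fintype κ]
    [DecidableEq κ] (a b : CStarMatrix κ κ A) (ha : 0 ≤ a) (hb : 0 ≤ b) :
    σ.dim (a + b) ≤ σ.dim a + σ.dim b := by
  have e1 := h1 A κ a b 0 0 le_rfl le_rfl ha hb
  rw [add_zero, cut_zero (add_nonneg ha hb), cut_zero ha, cut_zero hb] at e1
  obtain ⟨e2, e3⟩ := h4 A σ κ κ a b ha hb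
  rw [← e3]
  exact h3 A σ κ (κ ⊕ κ) _ _ (add_nonneg ha hb) e2 e1

theorem domM_sum (h1 : CuAddP.{u}) (h3 : QMonoP.{u}) (h4 : QDsumP.{u}) (h5 : QBasicP.{u})
    {A : Type u} [CStarAlgebra A] [PartialOrder A] [StarOrderedRing A] (σ : QTrace A) (κ : Type)
    [Fintype κ] [DecidableEq κ] (y : κ → CStarMatrix κ κ A) (hy : ∀ i, 0 ≤ y i)
    (s : Finset κ) : σ.dim (∑ i ∈ s, y i) ≤ ∑ i ∈ s, σ.dim (y i) := by
  classical
  induction s using Finset.induction_on with
  | empty =>
    rw [Finset.sum_empty, Finset.sum_empty]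
    exact domM_dim_zero h3 h5 σ κ
  | insert i s hi ih =>
    rw [Finset.sum_insert hi, Finset.sum_insert hi]
    refine (domM_add h1 h3 h4 σ κ _ _ (hy i) (Finset.sum_nonneg fun j _ => hy j)).trans ?_
    linarith

theorem domMP (h1 : CuAddP.{u}) (h2 : CuSwapP.{u}) (h3 : QMonoP.{u}) (h4 : QDsumP.{u})
    (h5 : QBasicP.{u}) : DomMP.{u} := by
  intro A _ _ _ σ₀ C hC hD σ κ _ _ x hx
  -- the square root
  obtain ⟨s, hs0, hs⟩ : ∃ s : CStarMatrix κ κ A, 0 ≤ s ∧ s * s = x :=
    ⟨CFC.sqrt x, CFC.sqrt_nonneg x, CFC.sqrt_mul_sqrt_self x hx⟩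
  have hss : star s = s := hs0.isSelfAdjoint.star_eq
  set z : κ → CStarMatrix κ Unit A := fun i => CStarMatrix.ofMatrix fun j _ => s j i with hz
  have hzx : x = ∑ i, z i * (z i).conjTranspose := by
    have hx' : x = s * star s := by rw [hss, hs]
    rw [hx']
    ext j k
    have hsum : ∀ (f : κ → CStarMatrix κ κ A), (∑ i, f i) j k = ∑ i, f i j k := by
      intro f
      exact Matrix.sum_apply _ _ _ _
    rw [hsum, CStarMatrix.mul_apply]
    refine Finset.sum_congr rfl fun i _ => ?_
    rw [CStarMatrix.mul_apply]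
    simp [hz, CStarMatrix.star_apply, CStarMatrix.conjTranspose_apply]
  have hzz : ∀ i, (z i).conjTranspose * z i = one1 (x i i) := by
    intro i
    have hx' : x = star s * s := by rw [hss, hs]
    ext a b
    rw [hx', CStarMatrix.mul_apply]
    show _ = (star s * s) i i
    rw [CStarMatrix.mul_apply]
    refine Finset.sum_congr rfl fun j _ => ?_
    simp [hz, CStarMatrix.star_apply, CStarMatrix.conjTranspose_apply]
  have hxi : ∀ i, 0 ≤ x i i := by
    intro i
    have hx' : x = star s * s := by rw [hss, hs]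
    rw [hx', CStarMatrix.mul_apply]
    refine Finset.sum_nonneg fun j _ => ?_
    rw [CStarMatrix.star_apply]
    exact star_mul_self_nonneg _
  have hone : ∀ i, 0 ≤ one1 (x i i) := fun i => by
    rw [← hzz i]; exact cm_conj_mul_nonneg _
  have hterm : ∀ i, σ.dim (z i * (z i).conjTranspose) ≤ C * σ₀.dim x := by
    intro i
    have e1 := h2 A κ Unit (z i) 0 le_rfl
    rw [cut_zero (cm_mul_conj_nonneg _), cut_zero (cm_conj_mul_nonneg _), hzz i] at e1
    have e2 := h3 A σ κ Unit _ _ (cm_mul_conj_nonneg _) (hone i) e1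
    have e3 := hD σ (x i i) (hxi i)
    have e4 : Cu (one1 (x i i)) x := by
      intro ε hε
      refine ⟨CStarMatrix.ofMatrix fun _ j => if j = i then 1 else 0, ?_⟩
      have : (CStarMatrix.ofMatrix (fun _ j => if j = i then 1 else 0) : CStarMatrix Unit κ A) * x *
          (CStarMatrix.ofMatrix (fun _ j => if j = i then 1 else 0) :
            CStarMatrix Unit κ A).conjTranspose - one1 (x i i) = 0 := by
        rw [sub_eq_zero]
        ext a b
        rw [CStarMatrix.mul_apply]
        show _ = x i i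
        rw [Finset.sum_eq_single i]
        · rw [CStarMatrix.mul_apply, Finset.sum_eq_single i]
          · simp [CStarMatrix.conjTranspose_apply]
          · intro j _ hj
            simp [hj]
          · intro h; exact absurd (Finset.mem_univ _) h
        · intro j _ hj
          simp [CStarMatrix.conjTranspose_apply, hj]
        · intro h; exact absurd (Finset.mem_univ _) h
      rw [this, norm_zero]
      exact hε
    have e5 := h3 A σ₀ Unit κ _ _ (hone i) hx e4
    calc σ.dim (z i * (z i).conjTranspose) ≤ σ.dim (one1 (x i i)) := e2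
      _ ≤ C * σ₀.dim (one1 (x i i)) := e3
      _ ≤ C * σ₀.dim x := mul_le_mul_of_nonneg_left e5 hC
  calc σ.dim x = σ.dim (∑ i, z i * (z i).conjTranspose) := by rw [← hzx]
    _ ≤ ∑ i, σ.dim (z i * (z i).conjTranspose) :=
        domM_sum h1 h3 h4 h5 σ κ _ (fun i => cm_mul_conj_nonneg _) Finset.univ
    _ ≤ ∑ _i : κ, C * σ₀.dim x := Finset.sum_le_sum fun i _ => hterm i
    _ = C * Fintype.card κ * σ₀.dim x := by
        rw [Finset.sum_const, Finset.card_univ, nsmul_eq_mul]; ring

end RC
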